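import Pool.Agent.N418.CZ.Stm

/-!
# CZ/CEN: `c_n^z + δ_n = c_n`
-/

set_option autoImplicit false

namespace Pool.Agent.N707.CZ

open Module Pool.Agent.N418.CZ

/-- a list with the letters `Fin n`, each once, comes from a permutation -/
theorem exists_perm {n : ℕ} {l : List (Fin n)}
    (h : (l : Multiset (Fin n)) = (Finset.univ : Finset (Fin n)).val) :
    ∃ σ : Equiv.Perm (Fin n), l = List.ofFn σ := by
  have hlen : l.length = n := by
    have := congrArg Multiset.card h
    rw [Multiset.coe_card, Finset.card_val, Finset.card_univ, Fintype.card_fin] at this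
    exact this
  have hnd : l.Nodup := by
    rw [← Multiset.coe_nodup, h]
    exact Finset.univ.nodup
  refine ⟨Equiv.ofBijective (fun i : Fin n => l.get (Fin.cast hlen.symm i))
    (Finite.injective_iff_bijective.1
      ((List.nodup_iff_injective_get.1 hnd).comp (Fin.cast_injective _))), ?_⟩
  apply List.ext_getElem
  · simp [hlen]
  · intro i h1 h2
    simp

theorem ofFn_univ {n : ℕ} (σ : Equiv.Perm (Fin n)) :
    ((List.ofFn σ : List (Fin n)) : Multiset (Fin n)) = (Finset.univ : Finset (Fin n)).val := by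
  rw [← Fin.univ_val_map, ← Finset.map_univ_equiv σ]
  simp

/-- the two definitions of the multilinear polynomials agree -/
theorem PF_eq_Pol (k n : ℕ) : PF ℝ k n = Pol k (Fin n) := by
  unfold PF Pol PolM
  congr 1
  ext f
  constructor
  · rintro ⟨σ, rfl⟩
    refine ⟨List.ofFn σ, ofFn_univ σ, ?_⟩
    funext x
    rw [List.map_ofFn]
    rfl
  · rintro ⟨l, hl, rfl⟩
    obtain ⟨σ, rfl⟩ := exists_perm hl
    refine ⟨σ, ?_⟩
    funext x
    rw [List.map_ofFn]
    rfl

theorem scal_inj {k : ℕ} (hk : 1 ≤ k) (ι : Type) : Function.Injective (scal k ι) := by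
  intro φ ψ h
  funext x
  have h1 := congrFun (congrFun (congrFun h x) ⟨0, hk⟩) ⟨0, hk⟩
  simpa [scal] using h1

theorem t_CEN : S_CEN := by
  intro k n hk
  set C := Subalgebra.toSubmodule (Subalgebra.center ℝ (Mk k)) with hC
  let L : ((Fin n → Mk k) → Mk k) →ₗ[ℝ] ((Fin n → Mk k) → (Mk k ⧸ C)) :=
    LinearMap.compLeft C.mkQ _
  have hZ : ZF ℝ k n = (PF ℝ k n).map L := by
    unfold ZF PF
    rw [Submodule.map_span, ← Set.range_comp]
    rfl
  have hfd : FiniteDimensional ℝ (PF ℝ k n) := by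
    unfold PF
    exact FiniteDimensional.span_of_finite ℝ (Set.finite_range _)
  have h1 := LinearMap.finrank_range_add_finrank_ker (L.domRestrict (PF ℝ k n))
  rw [LinearMap.range_domRestrict] at h1
  have hmem : ∀ M : Mk k, M ∈ C ↔ ∃ c : ℝ, M = c • (1 : Mk k) := by
    intro M
    rw [hC, Subalgebra.mem_toSubmodule, Algebra.IsCentral.center_eq_bot, Algebra.mem_bot]
    constructor
    · rintro ⟨c, rfl⟩
      exact ⟨c, Algebra.algebraMap_eq_smul_one c⟩
    · rintro ⟨c, rfl⟩
      exact ⟨c, Algebra.algebraMap_eq_smul_one c⟩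
  have h2 : (LinearMap.ker (L.domRestrict (PF ℝ k n))).map (PF ℝ k n).subtype =
      (I k (Fin n)).map (scal k (Fin n)) := by
    ext f
    constructor
    · rintro ⟨g, hg, rfl⟩
      have hg0 : L (g : (Fin n → Mk k) → Mk k) = 0 := hg
      have hg1 : ∀ x, ∃ c : ℝ, (g : (Fin n → Mk k) → Mk k) x = c • (1 : Mk k) := by
        intro x
        rw [← hmem, ← Submodule.Quotient.mk_eq_zero]
        exact congrFun hg0 x
      choose φ hφ using hg1
      have h3 : scal k (Fin n) φ = g := by
        funext x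
        exact (hφ x).symm
      refine ⟨φ, ?_, h3⟩
      change scal k (Fin n) φ ∈ Pol k (Fin n)
      rw [h3, ← PF_eq_Pol]
      exact g.2
    · rintro ⟨φ, hφ, rfl⟩
      have hφ' : scal k (Fin n) φ ∈ PF ℝ k n := by rw [PF_eq_Pol]; exact hφ
      refine ⟨⟨scal k (Fin n) φ, hφ'⟩, ?_, rfl⟩
      change L (scal k (Fin n) φ) = 0
      funext x
      change C.mkQ (scal k (Fin n) φ x) = 0
      rw [Submodule.mkQ_apply, Submodule.Quotient.mk_eq_zero, hmem]
      exact ⟨φ x, rfl⟩
  have h3 : finrank ℝ (LinearMap.ker (L.domRestrict (PF ℝ k n))) = finrank ℝ (I k (Fin n)) := by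
    rw [(Submodule.equivMapOfInjective (scal k (Fin n)) (scal_inj hk _) _).finrank_eq, ← h2]
    exact (Submodule.equivMapOfInjective (PF ℝ k n).subtype
      (Submodule.injective_subtype _) _).finrank_eq
  rw [hZ, ← h3]
  exact h1

end Pool.Agent.N707.CZ
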